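import Pool.Agent.Helper15.BB.St

/-!
# Project BB, module C: counts of reducible words
-/

set_option autoImplicit false

namespace Pool.Agent.Helper2.BB

open Pool.Agent.Helper22.FL Pool.Agent.Helper22.CS Pool.Agent.Helper15.BB

theorem stc : StC := by
  intro n i j k l hd w hw
  obtain ⟨h1, h2, h3, h4, h5, h6⟩ := hd
  induction hw with
  | nil => exact ⟨rfl, rfl⟩
  | @one c hc =>
    obtain ⟨c1, c2, c3, c4⟩ := hc
    simp [List.count_singleton, c1, c2, c3, c4]
  | cat _ _ ih1 ih2 =>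
    rw [List.count_append, List.count_append, List.count_append, List.count_append, ih1.1, ih1.2, ih2.1,
      ih2.2]
    exact ⟨rfl, rfl⟩
  | @pair a b u hab _ ih =>
    rcases hab with ⟨rfl, rfl⟩ | ⟨rfl, rfl⟩ | ⟨rfl, rfl⟩ | ⟨rfl, rfl⟩ <;>
    simp [List.count_cons, List.count_append, List.count_singleton, h1, h2, h3, h4, h5, h6, Ne.symm h1,
      Ne.symm h2, Ne.symm h3, Ne.symm h4, Ne.symm h5, Ne.symm h6, ih.1, ih.2]

end Pool.Agent.Helper2.BB
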