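import Pool.Agent.Helper15.BB.St

/-!
# Project BB, module T: words in two letters with equal counts are reducible
-/

set_option autoImplicit false

namespace Pool.Agent.Helper2.BB

open Pool.Agent.Helper22.FL Pool.Agent.Helper22.CS Pool.Agent.Helper15.BB

private lemma adj {T : Type} (w : List T) : (∃ (u : List T) (x y : T) (v : List T), w = u ++ [x, y] ++ v ∧ x ≠ y) ∨
    ∀ c ∈ w, ∀ d ∈ w, c = d := by
  classical
  induction w with
  | nil => right; simp
  | cons x w ih =>
    rcases ih with ⟨u, y, z, v, rfl, h⟩ | h
    · exact Or.inl ⟨x :: u, y, z, v, by simp, h⟩
    · rcases w with _ | ⟨y, w⟩
      · right; simp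
      · by_cases hxy : x = y
        · right
          subst hxy
          have h' : ∀ c ∈ x :: x :: w, c = x := by
            intro c hc
            rcases List.mem_cons.1 hc with hc | hc
            · exact hc
            · exact h c hc x (List.mem_cons_self)
          intro c hc d hd
          rw [h' c hc, h' d hd]
        · exact Or.inl ⟨[], x, y, w, by simp, hxy⟩

theorem stt (hI : StI) : StT := by
  classical
  intro n P F a b hab hPab hPba w
  induction hk : w.length using Nat.strong_induction_on generalizing w with
  | _ k ih =>
    intro hw hc
    rcases w with _ | ⟨z, w0⟩
    · exact .nil
    · rcases adj (z :: w0) with ⟨u, x, y, v, he, hxy⟩ | h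
      · rw [he] at hw hc hk ⊢
        have hx : x = a ∨ x = b := hw x (by simp)
        have hy : y = a ∨ y = b := hw y (by simp)
        have hP : P x y := by
          rcases hx with rfl | rfl <;> rcases hy with rfl | rfl
          · exact absurd rfl hxy
          · exact hPab
          · exact hPba
          · exact absurd rfl hxy
        have hr : RedF P F (u ++ v) := by
          apply ih (u ++ v).length _ (u ++ v) rfl
          · intro c hc'
            apply hw c
            rcases List.mem_append.1 hc' with h1 | h1 <;> simp [h1]
          · simp only [List.count_append, List.count_cons, List.count_nil] at hc ⊢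
            rcases hx with rfl | rfl <;> rcases hy with rfl | rfl
            · exact absurd rfl hxy
            · simp [hab, Ne.symm hab] at hc ⊢
              omega
            · simp [hab, Ne.symm hab] at hc ⊢
              omega
            · exact absurd rfl hxy
          · rw [← hk]
            simp only [List.length_append, List.length_cons, List.length_nil]
            omega
        exact (hI (Fin n) P F).1 u v [x, y] hr (RedF.pair (u := []) hP .nil)
      · exfalso
        have hz : z = a ∨ z = b := hw z List.mem_cons_self
        have hall : ∀ c ∈ z :: w0, c = z := fun c hc' => h c hc' z List.mem_cons_self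
        rcases hz with rfl | rfl
        · have h1 : (z :: w0).count b = 0 := List.count_eq_zero.2 fun hb => hab (hall b hb).symm
          have h2 : 0 < (z :: w0).count z := List.count_pos_iff.2 List.mem_cons_self
          omega
        · have h1 : (z :: w0).count a = 0 := List.count_eq_zero.2 fun hb => hab (hall a hb)
          have h2 : 0 < (z :: w0).count z := List.count_pos_iff.2 List.mem_cons_self
          omega

end Pool.Agent.Helper2.BB
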